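import Mathlib
import Pool.Agent.Keldysh.M_main_final

set_option autoImplicit false

open MeasureTheory ProbabilityTheory
open scoped ENNReal NNReal

namespace Pool.Agent.Results.MP_07dee5_an.RectAccessible

/-- The Keldysh measure of `U` at `a` evaluated on a set `S`:
`μ(S) = P(τ_U < ∞, B_{τ_U} ∈ S)`, where `B` is the Brownian motion `a + W` in `ℝⁿ`
(`Keldysh.bm`) and `τ_U = inf {t > 0 : B_t ∉ U}` (`Keldysh.exitTime`). For a set `S` for which the
event is not measurable this is the outer probability. -/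
noncomputable def keldysh {n : ℕ} {Ω : Type*} [MeasurableSpace Ω] (P : Measure Ω)
    (W : Fin n → ℝ≥0 → Ω → ℝ) (a : Keldysh.E n) (U : Set (Keldysh.E n))
    (S : Set (Keldysh.E n)) : ℝ≥0∞ :=
  P {ω | Keldysh.exitTime U (fun t => Keldysh.bm W a t ω) < ⊤ ∧
    Keldysh.bm W a (Keldysh.exitTime U (fun t => Keldysh.bm W a t ω)).toNNReal ω ∈ S}

/-- Let `n ≥ 2`, let `U ⊆ ℝⁿ` be finely open and `a ∈ U`. Then the Keldysh measure of `U` at `a`
(the exit distribution from `U` of Brownian motion started at `a`) is supported by the set `A(U)`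
of points outside `U` which are rectifiably accessible from `U`. -/
theorem result {n : ℕ} (hn : 2 ≤ n) {Ω : Type*} [MeasurableSpace Ω] (P : Measure Ω)
    [IsProbabilityMeasure P] (W : Fin n → ℝ≥0 → Ω → ℝ) (hW : ∀ i, IsBrownianReal (W i) P)
    (hind : iIndepFun (fun i ω t => W i t ω) P) (U : Set (Keldysh.E n))
    (hU : Keldysh.FinelyOpen U) (a : Keldysh.E n) (ha : a ∈ U) :
    keldysh P W a U (Keldysh.accessible U)ᶜ = 0 :=
  Keldysh.main_final hn P W hW hind U hU a ha

end Pool.Agent.Results.MP_07dee5_an.RectAccessible
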